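import Pool.Agent.helper17.EXC.Spec

set_option autoImplicit false

open Finset

namespace Pool.Agent.EXC

theorem FL6_ord {R : Type} [CommRing R] (u : R) (h6 : u ^ 6 = 1) (h2 : u ^ 2 ≠ 1) (h3 : u ^ 3 ≠ 1) : orderOf u = 6 := by
  apply orderOf_eq_of_pow_and_pow_div_prime (by norm_num) h6
  intro p hp hd
  have h : p ≤ 6 := Nat.le_of_dvd (by norm_num) hd
  interval_cases p
  · exact absurd hp (by decide)
  · exact absurd hp (by decide)
  · exact h3
  · exact h2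
  · exact absurd hd (by decide)
  · exact absurd hd (by decide)
  · exact absurd hp (by decide)

/-- Divisibility of `q ^ k - 1` in terms of `ZMod r`. -/
theorem FL6_dvd (r q k : ℕ) (hq : 0 < q) : r ∣ q ^ k - 1 ↔ (q : ZMod r) ^ k = 1 := by
  have h1 : 1 ≤ q ^ k := Nat.one_le_pow _ _ hq
  rw [← ZMod.natCast_eq_zero_iff, Nat.cast_sub h1, Nat.cast_pow, Nat.cast_one, sub_eq_zero]

/-- The Frobenius map. -/
def FL6_fr (K : Type) [Field K] (q : ℕ) (hq : q ≠ 0) (h : ∀ x y : K, (x + y) ^ q = x ^ q + y ^ q) : K →+* K where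
  toFun x := x ^ q
  map_one' := one_pow q
  map_mul' x y := mul_pow x y q
  map_zero' := zero_pow hq
  map_add' := h

theorem FL6_eq {K : Type} [Field K] {r : ℕ} {ζ : K} (hζ : IsPrimitiveRoot ζ r) (hr : 0 < r) (a b : ℕ) :
    ζ ^ a = ζ ^ b ↔ (a : ZMod r) = (b : ZMod r) := by
  rw [ZMod.natCast_eq_natCast_iff]
  have h : ∀ c : ℕ, ζ ^ c = ζ ^ (c % r) := by
    intro c
    have h1 := pow_mod_orderOf ζ c
    rw [← hζ.eq_orderOf] at h1
    exact h1.symm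
  rw [h a, h b]
  constructor
  · intro hab
    exact hζ.pow_inj (Nat.mod_lt _ hr) (Nat.mod_lt _ hr) hab
  · intro hab
    have hab' : a % r = b % r := hab
    rw [hab']

theorem FL6_pinj {R : Type} [CommRing R] [Nontrivial R] [IsDomain R] (u : R) (ho : orderOf u = 6) : ∀ i < 6, ∀ j < 6, u ^ i = u ^ j → i = j := by
  intro i hi j hj hij
  refine pow_injOn_Iio_orderOf (x := u) ?_ ?_ hij
  · rw [ho]; exact hi
  · rw [ho]; exact hj

theorem FL6_one {K : Type} [Field K] {r : ℕ} {ζ : K} (hζ : IsPrimitiveRoot ζ r) (a : ℕ) : ζ ^ a = 1 ↔ (a : ZMod r) = 0 := by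
  rw [hζ.pow_eq_one_iff_dvd, ZMod.natCast_eq_zero_iff]

/-- The trace is nonzero for some primitive root. -/
theorem FL6_tr {K : Type} [Field K] {r q : ℕ} [hr : Fact r.Prime] {ζ : K} (hζ : IsPrimitiveRoot ζ r) (ho : orderOf (q : ZMod r) = 6) :
    ∃ ξ : K, IsPrimitiveRoot ξ r ∧ ∑ i ∈ range 6, ξ ^ q ^ i ≠ 0 := by
  by_contra hcon
  push Not at hcon
  have hr1 : 1 < r := hr.out.one_lt
  have hpr : ∀ a : ℕ, (a : ZMod r) ≠ 0 → IsPrimitiveRoot (ζ ^ a) r := by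
    intro a ha
    refine hζ.pow_of_coprime a ?_
    rw [Nat.coprime_comm]
    refine (Nat.Prime.coprime_iff_not_dvd hr.out).2 ?_
    intro hd
    exact ha ((ZMod.natCast_eq_zero_iff a r).2 hd)
  have hu0 : (q : ZMod r) ≠ 0 := by
    intro h0
    have h1 : (q : ZMod r) ^ 6 = 1 := by rw [← ho]; exact pow_orderOf_eq_one _
    rw [h0] at h1
    simp at h1
  have hinj := FL6_pinj (q : ZMod r) ho
  have hgs : ∀ a : ℕ, (a : ZMod r) ≠ 0 → ∑ k ∈ range r, (ζ ^ a) ^ k = 0 := by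
    intro a ha
    exact (hpr a ha).geom_sum_eq_zero hr1
  have hsplit : ∀ f : ℕ → K, (∀ k, 0 < k → k < r → f k = 0) → ∑ k ∈ range r, f k = f 0 := by
    intro f hf
    rw [Finset.sum_eq_single 0]
    · intro k hk hk0
      exact hf k (Nat.pos_of_ne_zero hk0) (mem_range.1 hk)
    · intro h0
      exact absurd (mem_range.2 (by omega)) h0
  have hk0 : ∀ k, 0 < k → k < r → ∑ i ∈ range 6, (ζ ^ k) ^ q ^ i = 0 := by
    intro k hk hkr
    apply hcon
    apply hpr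
    intro h0
    rw [ZMod.natCast_eq_zero_iff] at h0
    exact absurd (Nat.le_of_dvd hk h0) (by omega)
  -- first sum
  have hA : ∑ k ∈ range r, ∑ i ∈ range 6, (ζ ^ k) ^ q ^ i = 0 := by
    rw [Finset.sum_comm]
    apply Finset.sum_eq_zero
    intro i hi
    have h1 : ∀ k, (ζ ^ k) ^ q ^ i = (ζ ^ (q ^ i)) ^ k := by
      intro k
      rw [← pow_mul, ← pow_mul, mul_comm]
    simp only [h1]
    apply hgs
    rw [Nat.cast_pow]
    exact pow_ne_zero _ hu0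
  have hA' : (6 : K) = 0 := by
    rw [hsplit _ hk0] at hA
    simpa using hA
  have hB : ∑ k ∈ range r, (∑ i ∈ range 6, (ζ ^ k) ^ q ^ i) * (ζ ^ k) ^ (r - 1) = (r : K) := by
    simp only [Finset.sum_mul]
    rw [Finset.sum_comm]
    have h1 : ∀ i k, (ζ ^ k) ^ q ^ i * (ζ ^ k) ^ (r - 1) = (ζ ^ (q ^ i + (r - 1))) ^ k := by
      intro i k
      rw [← pow_add, ← pow_mul, ← pow_mul, mul_comm]
    simp only [h1]
    rw [Finset.sum_eq_single 0]
    · have h2 : q ^ 0 + (r - 1) = r := by simp; omega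
      rw [h2, hζ.pow_eq_one]
      simp
    · intro i hi hi0
      apply hgs
      intro h3
      apply hi0
      apply hinj i (mem_range.1 hi) 0 (by norm_num)
      have h4 : ((r - 1 : ℕ) : ZMod r) = -1 := by
        rw [Nat.cast_sub hr1.le]
        simp
      rw [Nat.cast_add, h4, Nat.cast_pow] at h3
      rw [pow_zero]
      linear_combination h3
    · intro h; simp at h
  have hB' : ∑ k ∈ range r, (∑ i ∈ range 6, (ζ ^ k) ^ q ^ i) * (ζ ^ k) ^ (r - 1) = 6 := by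
    rw [hsplit]
    · simp
    · intro k hk hkr
      rw [hk0 k hk hkr, zero_mul]
  haveI : NeZero r := ⟨hr.out.ne_zero⟩
  have hrK : NeZero (r : K) := hζ.neZero'
  apply hrK.out
  rw [← hB, hB', hA']

/-- Independence. -/
theorem FL6_ind {F K : Type} [Field F] [Field K] [Algebra F K] (φ : K →+* K) (hφ : ∀ c : F, φ (algebraMap F K c) = algebraMap F K c)
    (x : ℕ → K) (hx : ∀ i, φ (x i) = x (i + 1)) (hinj : ∀ i < 6, ∀ j < 6, x i = x j → i = j)
    (a0 a1 a2 a3 a4 a5 : F) (h : algebraMap F K a0 + algebraMap F K a1 * x 0 + algebraMap F K a2 * x 0 ^ 2 + algebraMap F K a3 * x 0 ^ 3 +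
      algebraMap F K a4 * x 0 ^ 4 + algebraMap F K a5 * x 0 ^ 5 = 0) : a0 = 0 ∧ a1 = 0 ∧ a2 = 0 ∧ a3 = 0 ∧ a4 = 0 ∧ a5 = 0 := by
  have hall : ∀ i, algebraMap F K a0 + algebraMap F K a1 * x i + algebraMap F K a2 * x i ^ 2 + algebraMap F K a3 * x i ^ 3 +
      algebraMap F K a4 * x i ^ 4 + algebraMap F K a5 * x i ^ 5 = 0 := by
    intro i
    induction i with
    | zero => exact h
    | succ i ih =>
      have h1 := congrArg φ ih
      simpa only [map_add, map_mul, map_pow, hφ, hx, map_zero] using h1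
  set P : Polynomial F := ∑ j : Fin 6, Polynomial.C ((![a0, a1, a2, a3, a4, a5] : Fin 6 → F) j) * Polynomial.X ^ (j : ℕ) with hP
  have hdeg : (P.map (algebraMap F K)).natDegree ≤ 5 := by
    refine Polynomial.natDegree_map_le.trans ?_
    rw [hP]
    apply Polynomial.natDegree_sum_le_of_forall_le
    intro j _
    refine (Polynomial.natDegree_C_mul_X_pow_le _ _).trans ?_
    have := j.2
    omega
  have hzero : P.map (algebraMap F K) = 0 := by
    apply Polynomial.eq_zero_of_natDegree_lt_card_of_eval_eq_zero _ (f := fun i : Fin 6 => x i)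
    · intro i j hij
      exact Fin.ext (hinj i i.2 j j.2 hij)
    · intro i
      have h2 := hall i
      rw [Polynomial.eval_map, hP, Polynomial.eval₂_finsetSum]
      simp only [Fin.sum_univ_succ, Polynomial.eval₂_mul, Polynomial.eval₂_C, Polynomial.eval₂_pow, Polynomial.eval₂_X]
      rw [← h2]
      simp
      ring
    · rw [Fintype.card_fin]
      omega
  have hP0 : P = 0 := (Polynomial.map_eq_zero_iff (algebraMap F K).injective).1 hzero
  have hc : ∀ k : Fin 6, P.coeff k = (![a0, a1, a2, a3, a4, a5] : Fin 6 → F) k := by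
    intro k
    rw [hP, Polynomial.finsetSum_coeff]
    simp only [Polynomial.coeff_C_mul, Polynomial.coeff_X_pow]
    rw [Finset.sum_eq_single k]
    · simp
    · intro b _ hb
      rw [if_neg, mul_zero]
      intro h; exact hb (Fin.ext h.symm)
    · intro h; exact absurd (mem_univ k) h
  have hc' : ∀ k : Fin 6, (![a0, a1, a2, a3, a4, a5] : Fin 6 → F) k = 0 := by
    intro k
    rw [← hc k, hP0, Polynomial.coeff_zero]
  exact ⟨hc' 0, hc' 1, hc' 2, hc' 3, hc' 4, hc' 5⟩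

/-- The coefficients. -/
theorem FL6_coef {F K : Type} [Field F] [Field K] [Algebra F K] (φ : K →+* K) (hin : ∀ x : K, φ x = x → ∃ c : F, x = algebraMap F K c)
    (x0 x1 x2 x3 x4 x5 : K) (h0 : φ x0 = x1) (h1 : φ x1 = x2) (h2 : φ x2 = x3) (h3 : φ x3 = x4) (h4 : φ x4 = x5) (h5 : φ x5 = x0)
    (hp : x0 * x1 * x2 * x3 * x4 * x5 = 1) (hs : x0 + x1 + x2 + x3 + x4 + x5 ≠ 0) : ∃ c1 c2 c3 c4 c5 : F, c5 ≠ 0 ∧
    x0 ^ 6 + algebraMap F K c5 * x0 ^ 5 + algebraMap F K c4 * x0 ^ 4 + algebraMap F K c3 * x0 ^ 3 + algebraMap F K c2 * x0 ^ 2 +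
      algebraMap F K c1 * x0 + 1 = 0 := by
  obtain ⟨c5, hc5⟩ := hin (-(x0 + x1 + x2 + x3 + x4 + x5)) (by
    simp only [map_add, map_mul, map_neg, h0, h1, h2, h3, h4, h5]
    ring)
  obtain ⟨c4, hc4⟩ := hin ((x0 * x1 + x0 * x2 + x0 * x3 + x0 * x4 + x0 * x5 + x1 * x2 + x1 * x3 + x1 * x4 + x1 * x5 + x2 * x3 + x2 * x4 + x2 * x5 + x3 * x4 + x3 * x5 + x4 * x5)) (by
    simp only [map_add, map_mul, map_neg, h0, h1, h2, h3, h4, h5]
    ring)
  obtain ⟨c3, hc3⟩ := hin (-(x0 * x1 * x2 + x0 * x1 * x3 + x0 * x1 * x4 + x0 * x1 * x5 + x0 * x2 * x3 + x0 * x2 * x4 + x0 * x2 * x5 + x0 * x3 * x4 + x0 * x3 * x5 + x0 * x4 * x5 + x1 * x2 * x3 + x1 * x2 * x4 + x1 * x2 * x5 + x1 * x3 * x4 + x1 * x3 * x5 + x1 * x4 * x5 + x2 * x3 * x4 + x2 * x3 * x5 + x2 * x4 * x5 + x3 * x4 * x5)) (by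
    simp only [map_add, map_mul, map_neg, h0, h1, h2, h3, h4, h5]
    ring)
  obtain ⟨c2, hc2⟩ := hin ((x0 * x1 * x2 * x3 + x0 * x1 * x2 * x4 + x0 * x1 * x2 * x5 + x0 * x1 * x3 * x4 + x0 * x1 * x3 * x5 + x0 * x1 * x4 * x5 + x0 * x2 * x3 * x4 + x0 * x2 * x3 * x5 + x0 * x2 * x4 * x5 + x0 * x3 * x4 * x5 + x1 * x2 * x3 * x4 + x1 * x2 * x3 * x5 + x1 * x2 * x4 * x5 + x1 * x3 * x4 * x5 + x2 * x3 * x4 * x5)) (by
    simp only [map_add, map_mul, map_neg, h0, h1, h2, h3, h4, h5]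
    ring)
  obtain ⟨c1, hc1⟩ := hin (-(x0 * x1 * x2 * x3 * x4 + x0 * x1 * x2 * x3 * x5 + x0 * x1 * x2 * x4 * x5 + x0 * x1 * x3 * x4 * x5 + x0 * x2 * x3 * x4 * x5 + x1 * x2 * x3 * x4 * x5)) (by
    simp only [map_add, map_mul, map_neg, h0, h1, h2, h3, h4, h5]
    ring)
  refine ⟨c1, c2, c3, c4, c5, ?_, ?_⟩
  · rintro rfl
    apply hs
    rw [map_zero] at hc5
    linear_combination -hc5
  · rw [← hc1, ← hc2, ← hc3, ← hc4, ← hc5]
    linear_combination -hp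

theorem FL6 (hFL0 : FL0_stmt) : FL6_stmt := by
  intro F K _ _ _ _ _ r hr hrq h6 h2 h3
  obtain ⟨⟨ζ0, hζ0⟩, hfix, hadd, _⟩ := hFL0 F K r hr hrq
  haveI : Fact r.Prime := ⟨hr⟩
  set q := Nat.card F with hq
  have hqpos : 0 < q := Nat.card_pos
  set φ := FL6_fr K q hqpos.ne' hadd with hφ
  have hφa : ∀ x : K, φ x = x ^ q := fun x => rfl
  have hcF : ∀ c : F, c ^ q = c := by
    intro c
    haveI := Fintype.ofFinite F
    rw [hq, Nat.card_eq_fintype_card]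
    exact FiniteField.pow_card c
  have hφF : ∀ c : F, φ (algebraMap F K c) = algebraMap F K c := by
    intro c
    rw [hφa, ← map_pow, hcF]
  have hin : ∀ x : K, φ x = x → ∃ c : F, x = algebraMap F K c := fun x hx => hfix x hx
  rw [FL6_dvd r q 6 hqpos] at h6
  rw [FL6_dvd r q 2 hqpos] at h2
  rw [FL6_dvd r q 3 hqpos] at h3
  have ho := FL6_ord (q : ZMod r) h6 h2 h3
  set u : ZMod r := (q : ZMod r) with hu
  have hu3 : u ^ 3 = -1 := by
    have h : (u ^ 3 - 1) * (u ^ 3 + 1) = 0 := by linear_combination h6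
    rcases mul_eq_zero.1 h with h | h
    · exact absurd (sub_eq_zero.1 h) h3
    · linear_combination h
  have hu2 : u ^ 2 = u - 1 := by
    have h : (u + 1) * (u ^ 2 - u + 1) = 0 := by linear_combination hu3
    rcases mul_eq_zero.1 h with h | h
    · exfalso
      apply h2
      linear_combination (u - 1) * h
    · linear_combination h
  have hinj := FL6_pinj u ho
  have hx : ∀ (ζ : K) (i : ℕ), φ (ζ ^ q ^ i) = ζ ^ q ^ (i + 1) := by
    intro ζ i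
    rw [hφa, ← pow_mul, pow_succ]
  have hx6 : ∀ (ζ : K), IsPrimitiveRoot ζ r → φ (ζ ^ q ^ 5) = ζ ^ q ^ 0 := by
    intro ζ hζ
    rw [hx, FL6_eq hζ hr.pos]
    simp only [Nat.cast_pow]
    rw [← hu]
    linear_combination h6
  refine ⟨?_, ?_⟩
  · obtain ⟨ζ, hζ, htr⟩ := FL6_tr hζ0 ho
    refine ⟨ζ, hζ, ?_⟩
    have e0 := hx ζ 0
    have e1 := hx ζ 1
    have e2 := hx ζ 2
    have e3 := hx ζ 3
    have e4 := hx ζ 4
    have e5 := hx6 ζ hζ
    have hprod : ζ ^ q ^ 0 * ζ ^ q ^ 1 * ζ ^ q ^ 2 * ζ ^ q ^ 3 * ζ ^ q ^ 4 * ζ ^ q ^ 5 = 1 := by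
      rw [← pow_add, ← pow_add, ← pow_add, ← pow_add, ← pow_add, FL6_one hζ]
      simp only [Nat.cast_add, Nat.cast_pow]
      rw [← hu]
      linear_combination (1 + u + u ^ 2) * hu3
    have hζ0' : ζ = ζ ^ q ^ 0 := by simp
    have hsum : ζ ^ q ^ 0 + ζ ^ q ^ 1 + ζ ^ q ^ 2 + ζ ^ q ^ 3 + ζ ^ q ^ 4 + ζ ^ q ^ 5 ≠ 0 := by
      simpa [Finset.sum_range_succ] using htr
    obtain ⟨c1, c2, c3, c4, c5, hc5, hc⟩ := FL6_coef φ hin _ _ _ _ _ _ e0 e1 e2 e3 e4 e5 hprod hsum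
    refine ⟨c1, c2, c3, c4, c5, hc5, ?_, ?_⟩
    · rw [pow_zero, pow_one] at hc
      exact hc
    · intro a0 a1 a2 a3 a4 a5 ha
      refine FL6_ind φ hφF (fun i => ζ ^ q ^ i) (hx ζ) ?_ a0 a1 a2 a3 a4 a5 ?_
      · intro i hi j hj hij
        have h := (FL6_eq hζ hr.pos _ _).1 hij
        rw [Nat.cast_pow, Nat.cast_pow] at h
        exact hinj i hi j hj h
      · simp only [pow_zero, pow_one]
        exact ha
  · intro ζ hζ
    have e0 := hx ζ 0
    have e1 := hx ζ 1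
    have e2 := hx ζ 2
    have e3 := hx ζ 3
    have e4 := hx ζ 4
    have e5 := hx6 ζ hζ
    have p1 : ζ ^ q ^ 0 * ζ ^ q ^ 2 * ζ ^ q ^ 4 = 1 := by
      rw [← pow_add, ← pow_add, FL6_one hζ]
      simp only [Nat.cast_add, Nat.cast_pow]
      rw [← hu]
      linear_combination (u ^ 2 + u + 1) * hu2
    have p2 : ζ ^ q ^ 0 * ζ ^ q ^ 2 = ζ ^ q ^ 1 := by
      rw [← pow_add, FL6_eq hζ hr.pos]
      simp only [Nat.cast_add, Nat.cast_pow]
      rw [← hu]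
      linear_combination hu2
    have p3 : ζ ^ q ^ 2 * ζ ^ q ^ 4 = ζ ^ q ^ 3 := by
      rw [← pow_add, FL6_eq hζ hr.pos]
      simp only [Nat.cast_add, Nat.cast_pow]
      rw [← hu]
      linear_combination u ^ 2 * hu2
    have p4 : ζ ^ q ^ 0 * ζ ^ q ^ 4 = ζ ^ q ^ 5 := by
      rw [← pow_add, FL6_eq hζ hr.pos]
      simp only [Nat.cast_add, Nat.cast_pow]
      rw [← hu]
      linear_combination hu2 + (u - u ^ 2) * hu3
    obtain ⟨s, hs⟩ := hin (ζ ^ q ^ 0 + ζ ^ q ^ 1 + ζ ^ q ^ 2 + ζ ^ q ^ 3 + ζ ^ q ^ 4 + ζ ^ q ^ 5) (by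
      simp only [map_add, e0, e1, e2, e3, e4, e5]
      ring)
    obtain ⟨d, hd⟩ := hin ((ζ ^ q ^ 0 + ζ ^ q ^ 2 + ζ ^ q ^ 4) * (ζ ^ q ^ 1 + ζ ^ q ^ 3 + ζ ^ q ^ 5)) (by
      simp only [map_add, map_mul, e0, e1, e2, e3, e4, e5]
      ring)
    refine ⟨ζ ^ q ^ 0 + ζ ^ q ^ 2 + ζ ^ q ^ 4, s, d, ?_, ?_⟩
    · rw [← hs, ← hd]
      ring
    · rw [← hs]
      have hz : ζ = ζ ^ q ^ 0 := by simp
      have hq1 : ∀ y : K, ζ ^ 3 - y * ζ ^ 2 = (ζ ^ q ^ 0) ^ 3 - y * (ζ ^ q ^ 0) ^ 2 := by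
        intro y; rw [← hz]
      rw [hq1]
      have hq2 : ∀ y : K, y * ζ = y * ζ ^ q ^ 0 := by
        intro y; rw [← hz]
      rw [hq2]
      generalize ζ ^ q ^ 0 = x0 at *
      generalize ζ ^ q ^ 1 = x1 at *
      generalize ζ ^ q ^ 2 = x2 at *
      generalize ζ ^ q ^ 3 = x3 at *
      generalize ζ ^ q ^ 4 = x4 at *
      generalize ζ ^ q ^ 5 = x5 at *
      linear_combination p1 - x0 * (p2 + p3 + p4)

end Pool.Agent.EXC
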